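import Mathlib

set_option autoImplicit false

/-! Noise kernels on the cube. -/

namespace Pool.Agent.R813.SN

open Finset

/-- the cube -/
abbrev Q (N : ℕ) := Fin N → ℤˣ

/-- the real value of a sign -/
def sg (e : ℤˣ) : ℝ := ((e : ℤ) : ℝ)

theorem sg_mul (a b : ℤˣ) : sg (a * b) = sg a * sg b := by unfold sg; push_cast; rfl

theorem sg_one : sg 1 = 1 := by simp [sg]

theorem sg_neg_one : sg (-1) = -1 := by simp [sg]

theorem sg_cases (a : ℤˣ) : sg a = 1 ∨ sg a = -1 := by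
  rcases Int.units_eq_one_or a with rfl | rfl
  · exact Or.inl sg_one
  · exact Or.inr sg_neg_one

theorem sg_sq (a : ℤˣ) : sg a * sg a = 1 := by
  rcases sg_cases a with h | h <;> rw [h] <;> norm_num

theorem sum_units (f : ℤˣ → ℝ) : ∑ e, f e = f 1 + f (-1) := by
  rw [UnitsInt.univ, Finset.sum_pair (by decide)]

theorem sum_units_mul (a : ℤˣ) (F : ℝ → ℝ) : ∑ e, F (sg (a * e)) = F 1 + F (-1) := by
  rw [sum_units]
  rcases Int.units_eq_one_or a with rfl | rfl
  · rw [mul_one, one_mul, sg_one, sg_neg_one]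
  · rw [mul_one, sg_neg_one, neg_one_mul, neg_neg, sg_one, add_comm]

/-- the inner product -/
def ip {N : ℕ} (x y : Q N) : ℝ := ∑ i, sg (x i * y i)

theorem ip_comm {N : ℕ} (x y : Q N) : ip x y = ip y x := by
  unfold ip; exact Finset.sum_congr rfl fun i _ => by rw [mul_comm]

theorem ip_self {N : ℕ} (x : Q N) : ip x x = N := by
  unfold ip
  simp [Int.units_mul_self, sg_one]

/-- the noise kernel -/
noncomputable def T {N : ℕ} (ρ : ℝ) (x y : Q N) : ℝ := ∏ i, (1 + ρ * sg (x i * y i)) / 2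

theorem T_nonneg {N : ℕ} {ρ : ℝ} (h : |ρ| ≤ 1) (x y : Q N) : 0 ≤ T ρ x y := by
  refine Finset.prod_nonneg fun i _ => ?_
  have := abs_le.1 h
  rcases sg_cases (x i * y i) with h | h <;> rw [h] <;> linarith

theorem T_comm {N : ℕ} (ρ : ℝ) (x y : Q N) : T ρ x y = T ρ y x := by
  unfold T; exact Finset.prod_congr rfl fun i _ => by rw [mul_comm (x i)]

theorem sum_prod {N : ℕ} (x : Q N) (F : ℝ → ℝ) :
    ∑ y : Q N, ∏ i, F (sg (x i * y i)) = (F 1 + F (-1)) ^ N := by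
  have h := Finset.prod_univ_sum (fun _ : Fin N => (Finset.univ : Finset ℤˣ))
    (fun i e => F (sg (x i * e)))
  rw [Fintype.piFinset_univ] at h
  rw [← h, Finset.prod_congr rfl fun i _ => sum_units_mul (x i) F]
  simp

theorem T_sum {N : ℕ} (ρ : ℝ) (x : Q N) : ∑ y : Q N, T ρ x y = 1 := by
  unfold T
  rw [sum_prod x (fun t => (1 + ρ * t) / 2)]
  have : (1 + ρ * 1) / 2 + (1 + ρ * (-1)) / 2 = (1 : ℝ) := by ring
  rw [this, one_pow]

theorem T_one {N : ℕ} (x y : Q N) : T 1 x y = if x = y then 1 else 0 := by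
  unfold T
  split_ifs with h
  · subst h
    refine Finset.prod_eq_one fun i _ => ?_
    rw [Int.units_mul_self, sg_one]; norm_num
  · obtain ⟨i, hi⟩ := Function.ne_iff.1 h
    refine Finset.prod_eq_zero (Finset.mem_univ i) ?_
    have : x i * y i = -1 := by
      rcases Int.units_eq_one_or (x i) with h1 | h1 <;> rcases Int.units_eq_one_or (y i) with h2 | h2
      · exact absurd (h1.trans h2.symm) hi
      · rw [h1, h2]; rfl
      · rw [h1, h2]; rfl
      · exact absurd (h1.trans h2.symm) hi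
    rw [this, sg_neg_one]; norm_num

/-- characters -/
def chi {N : ℕ} (S : Finset (Fin N)) (x : Q N) : ℝ := ∏ i ∈ S, sg (x i)

theorem T_expand {N : ℕ} (ρ : ℝ) (x y : Q N) :
    T ρ x y = (1 / 2) ^ N * ∑ S : Finset (Fin N), ρ ^ S.card * (chi S x * chi S y) := by
  unfold T
  have h1 : ∏ i, (1 + ρ * sg (x i * y i)) / 2 =
      (1 / 2) ^ N * ∏ i, (1 + ρ * sg (x i * y i)) := by
    rw [Finset.prod_div_distrib]
    simp
    ring
  rw [h1, Finset.prod_one_add, Finset.powerset_univ]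
  congr 1
  refine Finset.sum_congr rfl fun S _ => ?_
  rw [Finset.prod_mul_distrib, Finset.prod_const]
  unfold chi
  rw [← Finset.prod_mul_distrib]
  congr 1
  exact Finset.prod_congr rfl fun i _ => sg_mul _ _

theorem exp_le {y : ℝ} (h : |y| ≤ 1) : Real.exp y ≤ 1 + y + y ^ 2 := by
  have := (abs_le.1 (Real.abs_exp_sub_one_sub_id_le h)).2
  linarith

/-- the mass of the kernel on the pairs with large inner product -/
theorem T_bad {N : ℕ} {ρ τ : ℝ} (hτ : 0 < τ) (hτ1 : τ ≤ 1 / 2) (hρ : ρ ≤ -(2 * τ)) (hρ1 : -1 ≤ ρ)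
    (x : Q N) : ∑ y : Q N, (if ip x y ≤ -(τ * N) then 0 else T ρ x y) ≤ (1 - τ ^ 2 / 16) ^ N := by
  have hρa : |ρ| ≤ 1 := abs_le.2 ⟨hρ1, by linarith⟩
  set l := τ / 8 with hl
  set F : ℝ → ℝ := fun t => (1 + ρ * t) / 2 * Real.exp (l * (t + τ)) with hF
  have h1 : ∀ y : Q N, (if ip x y ≤ -(τ * N) then 0 else T ρ x y) ≤ ∏ i, F (sg (x i * y i)) := by
    intro y
    have h2 : ∏ i, F (sg (x i * y i)) = T ρ x y * Real.exp (l * (ip x y + τ * N)) := by
      rw [hF, Finset.prod_mul_distrib, ← Real.exp_sum]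
      congr 2
      rw [← Finset.mul_sum, Finset.sum_add_distrib, Finset.sum_const, Finset.card_univ,
        Fintype.card_fin, nsmul_eq_mul, mul_comm τ]
      rfl
    rw [h2]
    split_ifs with h3
    · exact mul_nonneg (T_nonneg hρa x y) (Real.exp_nonneg _)
    · refine le_mul_of_one_le_right (T_nonneg hρa x y) ?_
      refine Real.one_le_exp (mul_nonneg (by positivity) ?_)
      rw [not_le] at h3
      linarith
  refine (Finset.sum_le_sum fun y _ => h1 y).trans ?_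
  rw [sum_prod x F]
  have h4 : 0 ≤ F 1 + F (-1) := by
    rw [hF]
    refine add_nonneg (mul_nonneg ?_ (Real.exp_nonneg _)) (mul_nonneg ?_ (Real.exp_nonneg _)) <;>
      linarith
  refine pow_le_pow_left₀ h4 ?_ N
  have e1 : Real.exp (l * (1 + τ)) ≤ 1 + l * (1 + τ) + (l * (1 + τ)) ^ 2 := by
    refine exp_le (abs_le.2 ⟨?_, ?_⟩)
    · have : 0 ≤ l * (1 + τ) := by positivity
      linarith
    · rw [hl]; nlinarith
  have e2 : Real.exp (l * (-1 + τ)) ≤ 1 + l * (-1 + τ) + (l * (-1 + τ)) ^ 2 := by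
    refine exp_le (abs_le.2 ⟨?_, ?_⟩)
    · rw [hl]; nlinarith
    · rw [hl]; nlinarith
  have g1 : 0 ≤ (1 + ρ * 1) / 2 := by linarith
  have g2 : 0 ≤ (1 + ρ * (-1)) / 2 := by linarith
  calc F 1 + F (-1) ≤ (1 + ρ * 1) / 2 * (1 + l * (1 + τ) + (l * (1 + τ)) ^ 2) +
        (1 + ρ * (-1)) / 2 * (1 + l * (-1 + τ) + (l * (-1 + τ)) ^ 2) :=
        add_le_add (mul_le_mul_of_nonneg_left e1 g1) (mul_le_mul_of_nonneg_left e2 g2)
    _ = 1 + l * (ρ + τ) + l ^ 2 * (1 + τ ^ 2 + 2 * τ * ρ) := by ring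
    _ ≤ 1 - τ ^ 2 / 16 := by
      have k1 : l * (ρ + τ) ≤ l * (-τ) := mul_le_mul_of_nonneg_left (by linarith) (by positivity)
      have k2 : l ^ 2 * (1 + τ ^ 2 + 2 * τ * ρ) ≤ l ^ 2 * 4 := by
        refine mul_le_mul_of_nonneg_left ?_ (by positivity)
        nlinarith
      have k3 : l ^ 2 * 4 = τ ^ 2 / 16 := by rw [hl]; ring
      have k4 : l * (-τ) = -(τ ^ 2 / 8) := by rw [hl]; ring
      linarith

end Pool.Agent.R813.SN
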