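import Mathlib

set_option autoImplicit false

/-! The Schrijver number and strong products. -/

namespace Pool.Agent.R813.SN

/-- The Schrijver number of a finite graph: the supremum of the sum of the entries of `X` over the
positive semidefinite matrices `X` with nonnegative entries and trace one that vanish on the
edges. -/
noncomputable def schrijver {V : Type*} [Fintype V] (G : SimpleGraph V) : ℝ :=
  sSup {s : ℝ | ∃ X : Matrix V V ℝ, X.PosSemidef ∧ (∀ u v, 0 ≤ X u v) ∧ X.trace = 1 ∧
    (∀ u v, G.Adj u v → X u v = 0) ∧ s = ∑ u, ∑ v, X u v}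

/-- The strong product of a finite family of graphs. -/
def strongProduct {r : ℕ} {V : Fin r → Type*} (G : ∀ i, SimpleGraph (V i)) :
    SimpleGraph (∀ i, V i) where
  Adj x y := x ≠ y ∧ ∀ i, x i = y i ∨ (G i).Adj (x i) (y i)
  symm := ⟨fun _ _ h => ⟨h.1.symm, fun i => (h.2 i).imp Eq.symm fun h => h.symm⟩⟩
  loopless := ⟨fun _ h => h.1 rfl⟩

end Pool.Agent.R813.SN
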