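import Mathlib

set_option autoImplicit false

/-! The moments of an explicit measure. -/

namespace Pool.Agent.R813.SN

open Finset

/-- the distance -/
def dd (i j : ℕ) : ℕ := (i - j) + (j - i)

/-- the Gaussian weights -/
noncomputable def D (i j : ℕ) : ℝ := (1 / 9 : ℝ) ^ (dd i j) ^ 2

theorem D_pos (i j : ℕ) : 0 < D i j := by unfold D; positivity

theorem D_self (i : ℕ) : D i i = 1 := by simp [D, dd]

theorem D_key (i j : ℕ) : (1 / 9 : ℝ) ^ (i ^ 2) * ((9 : ℝ) ^ (2 * i)) ^ j = 9 ^ (j ^ 2) * D i j := by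
  unfold D dd
  have h9 : ∀ n : ℕ, (1 / 9 : ℝ) ^ n * 9 ^ n = 1 := fun n => by
    rw [← mul_pow]; norm_num
  rcases le_total i j with h | h
  · obtain ⟨d, rfl⟩ := Nat.exists_eq_add_of_le h
    obtain ⟨A, hA⟩ : ∃ A, A = i ^ 2 + 2 * i * d := ⟨_, rfl⟩
    rw [show i - (i + d) + (i + d - i) = d by omega, ← pow_mul,
      show 2 * i * (i + d) = i ^ 2 + A by rw [hA]; ring,
      show (i + d) ^ 2 = A + d ^ 2 by rw [hA]; ring, pow_add, pow_add]
    calc (1 / 9 : ℝ) ^ i ^ 2 * (9 ^ i ^ 2 * 9 ^ A)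
        = ((1 / 9 : ℝ) ^ i ^ 2 * 9 ^ i ^ 2) * 9 ^ A := by ring
      _ = 9 ^ A := by rw [h9, one_mul]
      _ = 9 ^ A * ((1 / 9 : ℝ) ^ d ^ 2 * 9 ^ d ^ 2) := by rw [h9, mul_one]
      _ = _ := by ring
  · obtain ⟨d, rfl⟩ := Nat.exists_eq_add_of_le h
    obtain ⟨A, hA⟩ : ∃ A, A = j ^ 2 + 2 * j * d := ⟨_, rfl⟩
    rw [show j + d - j + (j - (j + d)) = d by omega, ← pow_mul,
      show 2 * (j + d) * j = j ^ 2 + A by rw [hA]; ring,
      show (j + d) ^ 2 = A + d ^ 2 by rw [hA]; ring, pow_add, pow_add]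
    calc (1 / 9 : ℝ) ^ A * (1 / 9) ^ d ^ 2 * (9 ^ j ^ 2 * 9 ^ A)
        = ((1 / 9 : ℝ) ^ A * 9 ^ A) * (9 ^ j ^ 2 * (1 / 9) ^ d ^ 2) := by ring
      _ = _ := by rw [h9, one_mul]

theorem D_le (i j : ℕ) : D i j ≤ (1 / 9 : ℝ) ^ dd i j := by
  unfold D
  refine pow_le_pow_of_le_one (by norm_num) (by norm_num) ?_
  nlinarith [Nat.zero_le (dd i j), Nat.le_self_pow (by norm_num : 2 ≠ 0) (dd i j)]

theorem D_sum_aux (j K : ℕ) : (K ≤ j + 1 → ∑ i ∈ range K, (1 / 9 : ℝ) ^ dd i j ≤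
      9 / 8 * (1 / 9) ^ (j + 1 - K)) ∧
    (j + 1 ≤ K → ∑ i ∈ range K, (1 / 9 : ℝ) ^ dd i j ≤ 5 / 4 - 1 / 8 * (1 / 9) ^ (K - (j + 1))) := by
  induction K with
  | zero =>
    refine ⟨fun _ => ?_, fun h => by omega⟩
    rw [range_zero, sum_empty]; positivity
  | succ K ih =>
    obtain ⟨h1, h2⟩ := ih
    have key : K + 1 ≤ j + 1 → ∑ i ∈ range (K + 1), (1 / 9 : ℝ) ^ dd i j ≤
        9 / 8 * (1 / 9) ^ (j + 1 - (K + 1)) := by
      intro h
      have h3 := h1 (by omega)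
      rw [sum_range_succ]
      have e1 : dd K j = j + 1 - (K + 1) := by unfold dd; omega
      have e2 : j + 1 - K = (j + 1 - (K + 1)) + 1 := by omega
      rw [e1]
      rw [e2, pow_succ] at h3
      linarith
    refine ⟨key, fun h => ?_⟩
    rcases h.eq_or_lt with h | h
    · have h3 := key h.symm.le
      rw [← h] at h3 ⊢
      rw [Nat.sub_self, pow_zero] at h3 ⊢
      linarith
    · have h3 := h2 (by omega)
      rw [sum_range_succ]
      have e1 : dd K j = (K - (j + 1)) + 1 := by unfold dd; omega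
      have e2 : K + 1 - (j + 1) = (K - (j + 1)) + 1 := by omega
      rw [e1, e2, pow_succ]
      have h4 : 0 ≤ (1 / 9 : ℝ) ^ (K - (j + 1)) := by positivity
      linarith

theorem D_sum (j K : ℕ) (h : j < K) : ∑ i ∈ range K, D i j ≤ 5 / 4 := by
  refine (sum_le_sum fun i _ => D_le i j).trans ?_
  have h1 := (D_sum_aux j K).2 h
  have h4 : 0 ≤ (1 / 9 : ℝ) ^ (K - (j + 1)) := by positivity
  linarith

/-- the weights -/
noncomputable def wt (i j : ℕ) : ℝ := (1 / 9 : ℝ) ^ (i ^ 2) * (1 / 9) ^ (j ^ 2)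

/-- first sign -/
def s1 (i j : ℕ) : ℝ := if i % 2 = 1 ∧ j % 2 = 0 then 1 else -1

/-- second sign -/
def s2 (i j : ℕ) : ℝ := if i % 2 = 0 ∧ j % 2 = 1 then 1 else -1

/-- first coordinate -/
noncomputable def uu (a : ℝ) (i j : ℕ) : ℝ := s1 i j * (a * 9 ^ (2 * i))

/-- second coordinate -/
noncomputable def vv (a : ℝ) (i j : ℕ) : ℝ := s2 i j * (a * 9 ^ (2 * j))

/-- the moments -/
noncomputable def mom (a : ℝ) (K p r : ℕ) : ℝ :=
  ∑ i ∈ range K, ∑ j ∈ range K, wt i j * (uu a i j ^ p * vv a i j ^ r)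

/-- the mass -/
noncomputable def mass (K : ℕ) : ℝ := ∑ i ∈ range K, ∑ j ∈ range K, wt i j

theorem wt_pos (i j : ℕ) : 0 < wt i j := by unfold wt; positivity

theorem s1_abs (i j : ℕ) : |s1 i j| = 1 := by unfold s1; split_ifs <;> simp

theorem s2_abs (i j : ℕ) : |s2 i j| = 1 := by unfold s2; split_ifs <;> simp

theorem even_pow_nonneg {x : ℝ} {n : ℕ} (h : n % 2 = 0) : 0 ≤ x ^ n :=
  (Nat.even_iff.2 h).pow_nonneg x

theorem sign_diag {p r : ℕ} (h : ¬ (p % 2 = 0 ∧ r % 2 = 0)) : s1 p r ^ p * s2 p r ^ r = 1 := by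
  unfold s1 s2
  rcases Nat.mod_two_eq_zero_or_one p with hp | hp <;> rcases Nat.mod_two_eq_zero_or_one r with hr | hr
  · exact absurd ⟨hp, hr⟩ h
  · rw [if_neg (by omega), if_pos ⟨hp, hr⟩, one_pow, mul_one, (Nat.even_iff.2 hp).neg_one_pow]
  · rw [if_pos ⟨hp, hr⟩, if_neg (by omega), one_pow, one_mul, (Nat.even_iff.2 hr).neg_one_pow]
  · rw [if_neg (by omega), if_neg (by omega), (Nat.odd_iff.2 hp).neg_one_pow,
      (Nat.odd_iff.2 hr).neg_one_pow]
    norm_num

theorem sign_ge (i j p r : ℕ) : -1 ≤ s1 i j ^ p * s2 i j ^ r := by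
  have h : |s1 i j ^ p * s2 i j ^ r| = 1 := by
    rw [abs_mul, abs_pow, abs_pow, s1_abs, s2_abs]; simp
  exact (abs_le.1 h.le).1

theorem mom_nonneg {a : ℝ} (ha : 0 < a) {K p r : ℕ} (hp : p < K) (hr : r < K) :
    0 ≤ mom a K p r := by
  unfold mom
  by_cases h : p % 2 = 0 ∧ r % 2 = 0
  · refine sum_nonneg fun i _ => sum_nonneg fun j _ => ?_
    exact mul_nonneg (wt_pos i j).le (mul_nonneg (even_pow_nonneg h.1) (even_pow_nonneg h.2))
  · have h1 : ∀ i j, wt i j * (uu a i j ^ p * vv a i j ^ r) =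
        (a ^ p * a ^ r * 9 ^ (p ^ 2) * 9 ^ (r ^ 2)) *
          ((s1 i j ^ p * s2 i j ^ r) * (D i p * D j r)) := by
      intro i j
      unfold wt uu vv
      have e1 := D_key i p
      have e2 := D_key j r
      rw [mul_pow, mul_pow, mul_pow, mul_pow]
      calc (1 / 9 : ℝ) ^ i ^ 2 * (1 / 9) ^ j ^ 2 *
            (s1 i j ^ p * (a ^ p * (9 ^ (2 * i)) ^ p) * (s2 i j ^ r * (a ^ r * (9 ^ (2 * j)) ^ r)))
          = ((1 / 9 : ℝ) ^ i ^ 2 * (9 ^ (2 * i)) ^ p) * ((1 / 9 : ℝ) ^ j ^ 2 * (9 ^ (2 * j)) ^ r) *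
            (s1 i j ^ p * s2 i j ^ r * (a ^ p * a ^ r)) := by ring
        _ = _ := by rw [e1, e2]; ring
    simp_rw [h1, ← mul_sum]
    refine mul_nonneg (by positivity) ?_
    have h2 : ∀ i j, (if i = p then (if j = r then (2 : ℝ) else 0) else 0) - D i p * D j r ≤
        (s1 i j ^ p * s2 i j ^ r) * (D i p * D j r) := by
      intro i j
      have hD : 0 < D i p * D j r := mul_pos (D_pos _ _) (D_pos _ _)
      by_cases hi : i = p
      · by_cases hj : j = r
        · subst hi hj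
          rw [if_pos rfl, if_pos rfl, sign_diag h, D_self, D_self]
          norm_num
        · rw [if_pos hi, if_neg hj]
          nlinarith [sign_ge i j p r]
      · rw [if_neg hi]
        nlinarith [sign_ge i j p r]
    refine le_trans ?_ (sum_le_sum fun i _ => sum_le_sum fun j _ => h2 i j)
    simp_rw [sum_sub_distrib]
    have h3 : ∑ i ∈ range K, ∑ j ∈ range K,
        (if i = p then (if j = r then (2 : ℝ) else 0) else 0) = 2 := by
      rw [sum_eq_single p]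
      · rw [sum_eq_single r]
        · simp
        · intro j _ hj; rw [if_pos rfl, if_neg hj]
        · intro hh; exact absurd (mem_range.2 hr) hh
      · intro i _ hi
        exact sum_eq_zero fun j _ => by rw [if_neg hi]
      · intro hh; exact absurd (mem_range.2 hp) hh
    have h4 : ∑ i ∈ range K, ∑ j ∈ range K, D i p * D j r ≤ 2 := by
      rw [← sum_mul_sum]
      have g1 := D_sum p K hp
      have g2 := D_sum r K hr
      have g3 : 0 ≤ ∑ i ∈ range K, D i p := sum_nonneg fun i _ => (D_pos i p).le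
      have g4 : 0 ≤ ∑ i ∈ range K, D i r := sum_nonneg fun i _ => (D_pos i r).le
      nlinarith
    rw [h3]
    linarith

theorem uu_abs {a : ℝ} (ha : 0 < a) {K i : ℕ} (hi : i < K) (j : ℕ) : |uu a i j| ≤ a * 9 ^ (2 * K) := by
  unfold uu
  rw [abs_mul, s1_abs, one_mul, abs_of_pos (by positivity)]
  gcongr
  · norm_num

theorem vv_abs {a : ℝ} (ha : 0 < a) {K j : ℕ} (hj : j < K) (i : ℕ) : |vv a i j| ≤ a * 9 ^ (2 * K) := by
  unfold vv
  rw [abs_mul, s2_abs, one_mul, abs_of_pos (by positivity)]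
  gcongr
  · norm_num

theorem mom_ge {a : ℝ} (ha : 0 < a) {K : ℕ} (hK : a * 9 ^ (2 * K) ≤ 1) (p r : ℕ) :
    -(mass K * (a * 9 ^ (2 * K)) ^ K) ≤ mom a K p r := by
  have hρ0 : 0 ≤ a * 9 ^ (2 * K) := by positivity
  by_cases h : p < K ∧ r < K
  · refine le_trans ?_ (mom_nonneg ha h.1 h.2)
    rw [Left.neg_nonpos_iff]
    refine mul_nonneg (sum_nonneg fun i _ => sum_nonneg fun j _ => (wt_pos i j).le) (by positivity)
  · have h1 : ∀ i ∈ range K, ∀ j ∈ range K, -(wt i j * (a * 9 ^ (2 * K)) ^ K) ≤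
        wt i j * (uu a i j ^ p * vv a i j ^ r) := by
      intro i hi j hj
      rw [← mul_neg]
      refine mul_le_mul_of_nonneg_left ?_ (wt_pos i j).le
      have hu := uu_abs ha (mem_range.1 hi) j
      have hv := vv_abs ha (mem_range.1 hj) i
      have h2 : |uu a i j ^ p * vv a i j ^ r| ≤ (a * 9 ^ (2 * K)) ^ K := by
        rw [abs_mul, abs_pow, abs_pow]
        rcases not_and_or.1 h with h | h
        · calc |uu a i j| ^ p * |vv a i j| ^ r ≤ (a * 9 ^ (2 * K)) ^ p * 1 := by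
                refine mul_le_mul (pow_le_pow_left₀ (abs_nonneg _) hu _) ?_ (by positivity)
                  (by positivity)
                exact pow_le_one₀ (abs_nonneg _) (hv.trans hK)
            _ ≤ (a * 9 ^ (2 * K)) ^ K := by
                rw [mul_one]
                exact pow_le_pow_of_le_one hρ0 hK (not_lt.1 h)
        · calc |uu a i j| ^ p * |vv a i j| ^ r ≤ 1 * (a * 9 ^ (2 * K)) ^ r := by
                refine mul_le_mul (pow_le_one₀ (abs_nonneg _) (hu.trans hK))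
                  (pow_le_pow_left₀ (abs_nonneg _) hv _) (by positivity) zero_le_one
            _ ≤ (a * 9 ^ (2 * K)) ^ K := by
                rw [one_mul]
                exact pow_le_pow_of_le_one hρ0 hK (not_lt.1 h)
      exact (abs_le.1 h2).1
    unfold mom mass
    rw [sum_mul, ← sum_neg_distrib]
    refine sum_le_sum fun i hi => ?_
    rw [sum_mul, ← sum_neg_distrib]
    exact sum_le_sum fun j hj => h1 i hi j hj

theorem uu_or_vv {a : ℝ} (ha : 0 < a) (i j : ℕ) : uu a i j ≤ -a ∨ vv a i j ≤ -a := by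
  have h1 : a ≤ a * 9 ^ (2 * i) := le_mul_of_one_le_right ha.le (one_le_pow₀ (by norm_num))
  have h2 : a ≤ a * 9 ^ (2 * j) := le_mul_of_one_le_right ha.le (one_le_pow₀ (by norm_num))
  unfold uu vv s1 s2
  by_cases h : i % 2 = 1 ∧ j % 2 = 0
  · right
    rw [if_neg (by omega)]
    linarith
  · left
    rw [if_neg h]
    linarith

end Pool.Agent.R813.SN
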