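import Mathlib
import Pool.Agent.R813.SN.Defs
import Pool.Agent.R813.SN.Cube

set_option autoImplicit false

/-! General facts on the Schrijver number. -/

namespace Pool.Agent.R813.SN

open Finset Matrix

section

variable {V : Type*} [Fintype V]

theorem quad_nonneg {X : Matrix V V ℝ} (hX : X.PosSemidef) (f : V → ℝ) :
    0 ≤ ∑ u, ∑ v, X u v * (f u * f v) := by
  have h := hX.dotProduct_mulVec_nonneg f
  have e : star f ⬝ᵥ (X *ᵥ f) = ∑ u, ∑ v, X u v * (f u * f v) := by
    unfold dotProduct mulVec dotProduct
    refine sum_congr rfl fun u _ => ?_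
    rw [mul_sum]
    refine sum_congr rfl fun v _ => ?_
    simp
    ring
  rwa [e] at h

theorem psd_of_quad {X : Matrix V V ℝ} (hs : ∀ u v, X u v = X v u)
    (h : ∀ f : V → ℝ, 0 ≤ ∑ u, ∑ v, X u v * (f u * f v)) : X.PosSemidef := by
  refine PosSemidef.of_dotProduct_mulVec_nonneg ?_ ?_
  · ext u v
    rw [conjTranspose_apply, hs u v]
    simp
  · intro f
    have e : star f ⬝ᵥ (X *ᵥ f) = ∑ u, ∑ v, X u v * (f u * f v) := by
      unfold dotProduct mulVec dotProduct
      refine sum_congr rfl fun u _ => ?_
      rw [mul_sum]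
      refine sum_congr rfl fun v _ => ?_
      simp
      ring
    rw [e]
    exact h f

omit [Fintype V] in
theorem psd_symm {X : Matrix V V ℝ} (hX : X.PosSemidef) (u v : V) : X u v = X v u := by
  have h := hX.isHermitian
  have := congrFun (congrFun h v) u
  rw [conjTranspose_apply] at this
  simpa using this

theorem sum_le_card {X : Matrix V V ℝ} (hX : X.PosSemidef) :
    ∑ u, ∑ v, X u v ≤ Fintype.card V * X.trace := by
  classical
  have h1 : ∀ u v, X u v ≤ (X u u + X v v) / 2 := by
    intro u v
    have h2 := quad_nonneg hX (fun w => (if w = u then 1 else 0) - (if w = v then 1 else 0))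
    have h4 : ∀ (w t : V), ∑ a, ∑ b, X a b * ((if a = w then 1 else 0) * (if b = t then 1 else 0)) =
        X w t := by
      intro w t
      rw [sum_eq_single w]
      · rw [sum_eq_single t]
        · simp
        · intro b _ hb
          simp [hb]
        · intro hh; exact absurd (mem_univ _) hh
      · intro b _ hb
        simp [hb]
      · intro hh; exact absurd (mem_univ _) hh
    have h3 : ∑ a, ∑ b, X a b * (((if a = u then (1 : ℝ) else 0) - (if a = v then 1 else 0)) *
        ((if b = u then 1 else 0) - (if b = v then 1 else 0))) = X u u - X u v - X v u + X v v := by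
      rw [← h4 u u, ← h4 u v, ← h4 v u, ← h4 v v]
      simp_rw [← sum_sub_distrib, ← sum_add_distrib]
      refine sum_congr rfl fun a _ => sum_congr rfl fun b _ => ?_
      ring
    rw [h3, psd_symm hX v u] at h2
    linarith
  calc ∑ u, ∑ v, X u v ≤ ∑ u, ∑ v, (X u u + X v v) / 2 :=
        sum_le_sum fun u _ => sum_le_sum fun v _ => h1 u v
    _ = Fintype.card V * X.trace := by
        simp_rw [← sum_div, sum_add_distrib, sum_const, card_univ, nsmul_eq_mul]
        rw [← mul_sum]
        unfold trace
        simp only [diag_apply]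
        ring

theorem bdd (G : SimpleGraph V) : BddAbove {s : ℝ | ∃ X : Matrix V V ℝ, X.PosSemidef ∧
    (∀ u v, 0 ≤ X u v) ∧ X.trace = 1 ∧ (∀ u v, G.Adj u v → X u v = 0) ∧ s = ∑ u, ∑ v, X u v} := by
  refine ⟨Fintype.card V, ?_⟩
  rintro s ⟨X, h1, _, h2, _, rfl⟩
  have := sum_le_card h1
  rwa [h2, mul_one] at this

theorem le_schrijver (G : SimpleGraph V) {X : Matrix V V ℝ} (hX : X.PosSemidef)
    (h0 : ∀ u v, 0 ≤ X u v) (ht : 0 < X.trace) (he : ∀ u v, G.Adj u v → X u v = 0) :
    (∑ u, ∑ v, X u v) / X.trace ≤ schrijver G := by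
  refine le_csSup (bdd G) ⟨(X.trace)⁻¹ • X, hX.smul (inv_nonneg.2 ht.le), ?_, ?_, ?_, ?_⟩
  · intro u v
    rw [Matrix.smul_apply, smul_eq_mul]
    exact mul_nonneg (inv_nonneg.2 ht.le) (h0 u v)
  · rw [trace_smul, smul_eq_mul, inv_mul_cancel₀ ht.ne']
  · intro u v h
    rw [Matrix.smul_apply, he u v h, smul_zero]
  · simp_rw [Matrix.smul_apply, smul_eq_mul, ← mul_sum]
    rw [div_eq_inv_mul]

theorem schrijver_le [Nonempty V] (G : SimpleGraph V) {c : ℝ}
    (h : ∀ X : Matrix V V ℝ, X.PosSemidef → (∀ u v, 0 ≤ X u v) → X.trace = 1 →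
      (∀ u v, G.Adj u v → X u v = 0) → ∑ u, ∑ v, X u v ≤ c) : schrijver G ≤ c := by
  classical
  refine csSup_le ?_ ?_
  · obtain ⟨w⟩ := ‹Nonempty V›
    refine ⟨_, Matrix.of fun u v => if u = w then (if v = w then 1 else 0) else 0, ?_, ?_, ?_, ?_,
      rfl⟩
    · refine psd_of_quad ?_ ?_
      · intro u v
        simp only [of_apply]
        split_ifs <;> rfl
      · intro f
        have e : ∑ u, ∑ v, (Matrix.of fun u v => if u = w then (if v = w then (1 : ℝ) else 0) else 0)
            u v * (f u * f v) = f w * f w := by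
          simp only [of_apply, ite_mul, one_mul, zero_mul]
          rw [sum_eq_single w]
          · simp
          · intro b _ hb
            simp [hb]
          · intro hh; exact absurd (mem_univ w) hh
        rw [e]
        exact mul_self_nonneg _
    · intro u v
      simp only [of_apply]
      split_ifs <;> norm_num
    · unfold trace
      simp only [diag_apply, of_apply]
      rw [sum_eq_single w]
      · simp
      · intro b _ hb
        simp [hb]
      · intro hh; exact absurd (mem_univ w) hh
    · intro u v huv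
      simp only [of_apply]
      split_ifs with h1 h2
      · subst h1 h2
        exact absurd huv G.irrefl
      · rfl
      · rfl
  · rintro s ⟨X, h1, h2, h3, h4, rfl⟩
    exact h X h1 h2 h3 h4

/-- lower bound from an induced subgraph -/
theorem le_of_embed {W : Type*} [Fintype W] [DecidableEq W] (H : SimpleGraph W) (ι : V → W)
    (hι : Function.Injective ι) {X : Matrix V V ℝ} (hX : X.PosSemidef)
    (h0 : ∀ u v, 0 ≤ X u v) (ht : 0 < X.trace) (he : ∀ u v, H.Adj (ι u) (ι v) → X u v = 0) :
    (∑ u, ∑ v, X u v) / X.trace ≤ schrijver H := by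
  set B : Matrix W V ℝ := Matrix.of fun a u => if a = ι u then 1 else 0 with hB
  have hY := hX.mul_mul_conjTranspose_same B
  set Y := B * X * Bᴴ with hYd
  have hent : ∀ a b, Y a b = ∑ u, ∑ v, (if a = ι u then (if b = ι v then X u v else 0) else 0) := by
    intro a b
    rw [hYd, mul_apply, sum_comm]
    refine sum_congr rfl fun v _ => ?_
    rw [mul_apply, sum_mul]
    refine sum_congr rfl fun u _ => ?_
    simp only [hB, conjTranspose_apply, of_apply, star_trivial]
    split_ifs <;> simp
  have hsum : ∑ a, ∑ b, Y a b = ∑ u, ∑ v, X u v := by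
    simp_rw [hent]
    calc ∑ a, ∑ b, ∑ u, ∑ v, (if a = ι u then (if b = ι v then X u v else 0) else 0)
        = ∑ a, ∑ u, ∑ b, ∑ v, (if a = ι u then (if b = ι v then X u v else 0) else 0) :=
          sum_congr rfl fun a _ => sum_comm
      _ = ∑ u, ∑ a, ∑ b, ∑ v, (if a = ι u then (if b = ι v then X u v else 0) else 0) := sum_comm
      _ = ∑ u, ∑ v, X u v := by
          refine sum_congr rfl fun u _ => ?_
          rw [sum_eq_single (ι u)]
          · rw [sum_comm]
            refine sum_congr rfl fun v _ => ?_
            simp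
          · intro b _ hb
            refine sum_eq_zero fun c _ => sum_eq_zero fun v _ => ?_
            rw [if_neg hb]
          · intro hh; exact absurd (mem_univ _) hh
  have htr : Y.trace = X.trace := by
    unfold trace
    simp only [diag_apply, hent]
    rw [sum_comm]
    refine sum_congr rfl fun u _ => ?_
    rw [sum_comm, sum_eq_single u]
    · simp
    · intro v _ hv
      refine sum_eq_zero fun a _ => ?_
      split_ifs with h1 h2
      · exact absurd (hι (h2.symm.trans h1)) hv
      · rfl
      · rfl
    · intro hh; exact absurd (mem_univ _) hh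
  have h := le_schrijver H hY ?_ (by rw [htr]; exact ht) ?_
  · rwa [hsum, htr] at h
  · intro a b
    rw [hent]
    refine sum_nonneg fun u _ => sum_nonneg fun v _ => ?_
    split_ifs
    · exact h0 u v
    · exact le_rfl
    · exact le_rfl
  · intro a b hab
    rw [hent]
    refine sum_eq_zero fun u _ => sum_eq_zero fun v _ => ?_
    split_ifs with h1 h2
    · subst h1 h2
      exact he u v hab
    · rfl
    · rfl

/-- diagonal dominance -/
theorem psd_dominant [DecidableEq V] {E : Matrix V V ℝ} (hs : ∀ u v, E u v = E v u)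
    (h0 : ∀ u v, 0 ≤ E u v) {η : ℝ} (h : ∀ u, ∑ v, E u v ≤ η) :
    (Matrix.of fun u v => (if u = v then η else 0) - E u v).PosSemidef := by
  refine psd_of_quad ?_ ?_
  · intro u v
    simp only [of_apply]
    rw [hs u v]
    congr 1
    simp only [eq_comm]
  · intro f
    have h1 : ∀ u v, (if u = v then η * f u ^ 2 else 0) - E u v * (f u ^ 2 + f v ^ 2) / 2 ≤
        (Matrix.of fun u v => (if u = v then η else 0) - E u v) u v * (f u * f v) := by
      intro u v
      simp only [of_apply]
      have h2 := h0 u v
      split_ifs with huv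
      · subst huv
        nlinarith
      · nlinarith [sq_nonneg (f u - f v), mul_nonneg h2 (sq_nonneg (f u - f v))]
    refine le_trans ?_ (sum_le_sum fun u _ => sum_le_sum fun v _ => h1 u v)
    simp_rw [sum_sub_distrib]
    have h3 : ∑ u, ∑ v, (if u = v then η * f u ^ 2 else 0) = ∑ u, η * f u ^ 2 := by
      refine sum_congr rfl fun u _ => ?_
      simp
    have h4 : ∑ u, ∑ v, E u v * (f u ^ 2 + f v ^ 2) / 2 = ∑ u, (∑ v, E u v) * f u ^ 2 := by
      have h5 : ∑ u, ∑ v, E u v * f v ^ 2 = ∑ u, ∑ v, E u v * f u ^ 2 := by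
        rw [sum_comm]
        exact sum_congr rfl fun u _ => sum_congr rfl fun v _ => by rw [hs v u]
      calc ∑ u, ∑ v, E u v * (f u ^ 2 + f v ^ 2) / 2
          = (∑ u, ∑ v, E u v * f u ^ 2) / 2 + (∑ u, ∑ v, E u v * f v ^ 2) / 2 := by
            rw [sum_div, sum_div, ← sum_add_distrib]
            refine sum_congr rfl fun u _ => ?_
            rw [sum_div, sum_div, ← sum_add_distrib]
            exact sum_congr rfl fun v _ => by ring
        _ = ∑ u, ∑ v, E u v * f u ^ 2 := by rw [h5]; ring
        _ = _ := by simp_rw [sum_mul]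
    rw [h3, h4, sub_nonneg]
    exact sum_le_sum fun u _ => mul_le_mul_of_nonneg_right (h u) (sq_nonneg _)

end

end Pool.Agent.R813.SN
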