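import Mathlib
import Pool.Agent.R813.SN.Theta
import Pool.Agent.R813.SN.Mom

set_option autoImplicit false

/-! The feasible matrix for the strong product. -/

namespace Pool.Agent.R813.SN

open Finset Matrix

variable {N : ℕ}

/-- positive semidefiniteness from the moments -/
theorem psd_of_moments {ι : Type*} (s : Finset ι) (c u v : ι → ℝ) (δ : ℝ)
    (h : ∀ p r : ℕ, 0 ≤ (∑ k ∈ s, c k * (u k ^ p * v k ^ r)) + δ) :
    (Matrix.of fun p p' : Q N × Q N => (∑ k ∈ s, c k * (T (u k) p.1 p'.1 * T (v k) p.2 p'.2)) +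
      if p = p' then δ else 0).PosSemidef := by
  set g : Finset (Fin N) → Finset (Fin N) → Q N × Q N → ℝ := fun S R p => chi S p.1 * chi R p.2
    with hg
  have e : (Matrix.of fun p p' : Q N × Q N =>
      (∑ k ∈ s, c k * (T (u k) p.1 p'.1 * T (v k) p.2 p'.2)) + if p = p' then δ else 0) =
      ∑ S : Finset (Fin N), ∑ R : Finset (Fin N), ((1 / 2) ^ N * (1 / 2) ^ N *
        ((∑ k ∈ s, c k * (u k ^ S.card * v k ^ R.card)) + δ)) •
          vecMulVec (g S R) (star (g S R)) := by
    ext p p'
    simp only [of_apply, Matrix.sum_apply, Matrix.smul_apply, smul_eq_mul, vecMulVec_apply,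
      star_trivial]
    have h1 : ∀ a b : ℝ, T a p.1 p'.1 * T b p.2 p'.2 = ∑ S : Finset (Fin N), ∑ R : Finset (Fin N),
        (1 / 2) ^ N * (1 / 2) ^ N * (a ^ S.card * b ^ R.card) * (g S R p * g S R p') := by
      intro a b
      rw [T_expand a, T_expand b, mul_sum, mul_sum, sum_mul_sum]
      refine sum_congr rfl fun S _ => sum_congr rfl fun R _ => ?_
      simp only [hg]
      ring
    have h2 : (if p = p' then δ else 0) = δ * (T 1 p.1 p'.1 * T 1 p.2 p'.2) := by
      rw [T_one, T_one]
      by_cases h : p = p'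
      · subst h; simp
      · rw [if_neg h]
        have : ¬ (p.1 = p'.1 ∧ p.2 = p'.2) := fun hh => h (Prod.ext hh.1 hh.2)
        by_cases h3 : p.1 = p'.1
        · rw [if_neg (fun h4 => this ⟨h3, h4⟩)]; simp
        · rw [if_neg h3]; simp
    rw [h2, h1 1 1]
    have h3 : ∑ k ∈ s, c k * (T (u k) p.1 p'.1 * T (v k) p.2 p'.2) =
        ∑ S : Finset (Fin N), ∑ R : Finset (Fin N), ∑ k ∈ s, c k * ((1 / 2) ^ N * (1 / 2) ^ N *
          (u k ^ S.card * v k ^ R.card) * (g S R p * g S R p')) := by
      calc ∑ k ∈ s, c k * (T (u k) p.1 p'.1 * T (v k) p.2 p'.2)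
          = ∑ k ∈ s, ∑ S : Finset (Fin N), ∑ R : Finset (Fin N), c k * ((1 / 2) ^ N * (1 / 2) ^ N *
            (u k ^ S.card * v k ^ R.card) * (g S R p * g S R p')) := by
            refine sum_congr rfl fun k _ => ?_
            rw [h1, mul_sum]
            exact sum_congr rfl fun S _ => by rw [mul_sum]
        _ = ∑ S : Finset (Fin N), ∑ k ∈ s, ∑ R : Finset (Fin N), c k * ((1 / 2) ^ N * (1 / 2) ^ N *
            (u k ^ S.card * v k ^ R.card) * (g S R p * g S R p')) := sum_comm
        _ = _ := sum_congr rfl fun S _ => sum_comm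
    rw [h3, mul_sum, ← sum_add_distrib]
    refine sum_congr rfl fun S _ => ?_
    rw [mul_sum, ← sum_add_distrib]
    refine sum_congr rfl fun R _ => ?_
    rw [mul_add, add_mul, one_pow, one_pow]
    congr 1
    · rw [mul_sum, sum_mul]
      exact sum_congr rfl fun k _ => by ring
    · ring
  rw [e]
  refine posSemidef_sum _ fun S _ => posSemidef_sum _ fun R _ => ?_
  exact (posSemidef_vecMulVec_self_star _).smul (mul_nonneg (by positivity) (h _ _))

/-- The graph on the cube: distinct vertices with inner product larger than `-τ N` are adjacent. -/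
def cubeG (N : ℕ) (τ : ℝ) : SimpleGraph (Q N) where
  Adj x y := x ≠ y ∧ -(τ * N) < ip x y
  symm := ⟨fun x y h => ⟨h.1.symm, by rw [ip_comm]; exact h.2⟩⟩
  loopless := ⟨fun _ h => h.1 rfl⟩

theorem cubeG_le (hN : 0 < N) {τ : ℝ} (hτ : 0 < τ) : schrijver (cubeG N τ) ≤ 1 + 1 / τ := by
  refine schrijver_le _ fun X hX h0 ht he => ?_
  have hN' : (0 : ℝ) < N := by exact_mod_cast hN
  have h1 : 0 ≤ ∑ x : Q N, ∑ y : Q N, X x y * ip x y := by
    have h2 : ∑ x : Q N, ∑ y : Q N, X x y * ip x y =
        ∑ i : Fin N, ∑ x : Q N, ∑ y : Q N, X x y * (sg (x i) * sg (y i)) := by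
      rw [sum_comm (s := (univ : Finset (Fin N)))]
      refine sum_congr rfl fun x _ => ?_
      rw [sum_comm]
      refine sum_congr rfl fun y _ => ?_
      unfold ip
      rw [mul_sum]
      exact sum_congr rfl fun i _ => by rw [sg_mul]
    rw [h2]
    exact sum_nonneg fun i _ => quad_nonneg hX fun x => sg (x i)
  have h3 : ∀ x y : Q N, X x y * ip x y ≤ -(τ * N) * X x y +
      if x = y then (N + τ * N) * X x x else 0 := by
    intro x y
    by_cases hxy : x = y
    · subst hxy
      rw [if_pos rfl, ip_self]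
      linarith
    · rw [if_neg hxy, add_zero]
      by_cases h4 : -(τ * N) < ip x y
      · rw [he x y ⟨hxy, h4⟩]; simp
      · rw [not_lt] at h4
        nlinarith [h0 x y]
  have h5 := h1.trans (sum_le_sum fun x _ => sum_le_sum fun y _ => h3 x y)
  simp_rw [sum_add_distrib, ← mul_sum] at h5
  have h6 : ∑ x : Q N, ∑ y : Q N, (if x = y then (N + τ * N) * X x x else 0) = N + τ * N := by
    have : ∀ x : Q N, ∑ y : Q N, (if x = y then (N + τ * N) * X x x else 0) =
        (N + τ * N) * X x x := fun x => by simp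
    simp_rw [this, ← mul_sum]
    have ht' : ∑ x, X x x = 1 := ht
    rw [ht', mul_one]
  rw [h6] at h5
  set s := ∑ x, ∑ y, X x y
  have h7 : τ * s ≤ 1 + τ := by
    have : N * (τ * s) ≤ N * (1 + τ) := by linarith
    exact le_of_mul_le_mul_left this hN'
  rw [show 1 + 1 / τ = (1 + τ) / τ by field_simp; ring, le_div_iff₀ hτ]
  linarith

theorem two_le_cubeG (hN : 0 < N) {τ : ℝ} (hτ : τ ≤ 1) : 2 ≤ schrijver (cubeG N τ) := by
  set e1 : Q N := fun _ => 1 with he1
  set e2 : Q N := fun _ => -1 with he2
  have hne : e1 ≠ e2 := by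
    intro h
    have := congrFun h ⟨0, hN⟩
    simp only [he1, he2] at this
    exact absurd this (by decide)
  have hip : ip e1 e2 = -N := by
    unfold ip
    simp [he1, he2, sg_neg_one]
  set f : Q N → ℝ := fun x => (if x = e1 then 1 else 0) + (if x = e2 then 1 else 0) with hf
  have hfs : ∑ x, f x = 2 := by
    rw [hf, sum_add_distrib]
    simp
    norm_num
  have hff : ∀ x, f x * f x = f x := by
    intro x
    simp only [hf]
    by_cases h1 : x = e1
    · have h2 : x ≠ e2 := fun h => hne (h1.symm.trans h)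
      rw [if_pos h1, if_neg h2]; norm_num
    · by_cases h2 : x = e2
      · rw [if_neg h1, if_pos h2]; norm_num
      · rw [if_neg h1, if_neg h2]; norm_num
  have hX := posSemidef_vecMulVec_self_star f
  have htr : (vecMulVec f (star f)).trace = 2 := by
    unfold trace
    simp only [diag_apply, vecMulVec_apply, star_trivial, hff]
    exact hfs
  have hsum : ∑ u, ∑ v, vecMulVec f (star f) u v = 4 := by
    simp only [vecMulVec_apply, star_trivial]
    rw [← sum_mul_sum, hfs]; norm_num
  have hf0 : ∀ x, 0 ≤ f x := by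
    intro x
    simp only [hf]
    split_ifs <;> norm_num
  have h := le_schrijver (cubeG N τ) hX ?_ (by rw [htr]; norm_num) ?_
  · rw [hsum, htr] at h
    linarith
  · intro u v
    simp only [vecMulVec_apply, star_trivial]
    exact mul_nonneg (hf0 u) (hf0 v)
  · intro u v huv
    simp only [vecMulVec_apply, star_trivial]
    have key : -(τ * N) ≥ -(N : ℝ) := by
      have : (0 : ℝ) ≤ N := Nat.cast_nonneg _
      nlinarith
    by_contra hcon
    have hu : f u ≠ 0 := fun h => hcon (by rw [h, zero_mul])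
    have hv : f v ≠ 0 := fun h => hcon (by rw [h, mul_zero])
    have hu' : u = e1 ∨ u = e2 := by
      by_contra h
      rw [not_or] at h
      exact hu (by simp [hf, h.1, h.2])
    have hv' : v = e1 ∨ v = e2 := by
      by_contra h
      rw [not_or] at h
      exact hv (by simp [hf, h.1, h.2])
    rcases hu' with rfl | rfl <;> rcases hv' with rfl | rfl
    · exact huv.1 rfl
    · have := huv.2; rw [hip] at this; linarith
    · have := huv.2; rw [ip_comm, hip] at this; linarith
    · exact huv.1 rfl

end Pool.Agent.R813.SN
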