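import Mathlib
import Pool.Agent.R813.SN.Main

set_option autoImplicit false

/-! The lower bound for the strong product. -/

namespace Pool.Agent.R813.SN

open Finset Matrix

variable {N : ℕ}

open Classical in
theorem row_bound {τ : ℝ} (hτ : 0 < τ) (hτ1 : τ ≤ 1 / 2) {u v : ℝ} (hu : |u| ≤ 1)
    (huv : u ≤ -(2 * τ) ∨ v ≤ -(2 * τ)) (hv : |v| ≤ 1) (p : Q N × Q N) :
    ∑ p' : Q N × Q N, (if (if u ≤ -(2 * τ) then ip p.1 p'.1 ≤ -(τ * N) else ip p.2 p'.2 ≤ -(τ * N))
      then 0 else T u p.1 p'.1 * T v p.2 p'.2) ≤ (1 - τ ^ 2 / 16) ^ N := by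
  rw [Fintype.sum_prod_type]
  by_cases h : u ≤ -(2 * τ)
  · simp only [if_pos h]
    have e : ∀ x y : Q N, (if ip p.1 x ≤ -(τ * N) then 0 else T u p.1 x * T v p.2 y) =
        (if ip p.1 x ≤ -(τ * N) then 0 else T u p.1 x) * T v p.2 y := by
      intro x y
      split_ifs
      · rw [zero_mul]
      · rfl
    simp_rw [e]
    rw [← sum_mul_sum, T_sum, mul_one]
    exact T_bad hτ hτ1 h (abs_le.1 hu).1 p.1
  · have h' := huv.resolve_left h
    simp only [if_neg h]
    have e : ∀ x y : Q N, (if ip p.2 y ≤ -(τ * N) then 0 else T u p.1 x * T v p.2 y) =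
        T u p.1 x * (if ip p.2 y ≤ -(τ * N) then 0 else T v p.2 y) := by
      intro x y
      split_ifs
      · rw [mul_zero]
      · rfl
    simp_rw [e]
    rw [← sum_mul_sum, T_sum, one_mul]
    exact T_bad hτ hτ1 h' (abs_le.1 hv).1 p.2

/-- the embedding of the square of the cube in the power -/
def emb (r : ℕ) (p : Q N × Q N) : Fin r → Q N := fun i =>
  if i.val = 0 then p.1 else if i.val = 1 then p.2 else fun _ => 1

theorem emb_inj {r : ℕ} (hr : 2 ≤ r) : Function.Injective (emb (N := N) r) := by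
  intro p q h
  have h0 := congrFun h ⟨0, by omega⟩
  have h1 := congrFun h ⟨1, by omega⟩
  simp only [emb] at h0 h1
  exact Prod.ext (by simpa using h0) (by simpa using h1)

theorem product_bound (hN : 0 < N) {r : ℕ} (hr : 2 ≤ r) {τ : ℝ} (hτ : 0 < τ) (hτ1 : τ ≤ 1 / 2)
    {ι : Type*} (s : Finset ι) (c u v : ι → ℝ) (hc : ∀ k ∈ s, 0 < c k) (hu : ∀ k ∈ s, |u k| ≤ 1)
    (hv : ∀ k ∈ s, |v k| ≤ 1) (huv : ∀ k ∈ s, u k ≤ -(2 * τ) ∨ v k ≤ -(2 * τ)) {δ : ℝ}
    (hδ : 0 < δ) (hm : ∀ p r : ℕ, 0 ≤ (∑ k ∈ s, c k * (u k ^ p * v k ^ r)) + δ) :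
    (∑ k ∈ s, c k) / (δ + (∑ k ∈ s, c k) * (1 - τ ^ 2 / 16) ^ N) ≤
      schrijver (strongProduct fun _ : Fin r => cubeG N τ) := by
  classical
  have hN' : (0 : ℝ) < N := by exact_mod_cast hN
  set W := ∑ k ∈ s, c k with hW
  have hW0 : 0 ≤ W := sum_nonneg fun k hk => (hc k hk).le
  set c0 := (1 - τ ^ 2 / 16) with hc0
  have hc00 : 0 ≤ c0 := by rw [hc0]; nlinarith
  set η := W * c0 ^ N with hη
  have hη0 : 0 ≤ η := by positivity
  set ok : ι → Q N × Q N → Q N × Q N → Prop := fun k p p' =>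
    if u k ≤ -(2 * τ) then ip p.1 p'.1 ≤ -(τ * N) else ip p.2 p'.2 ≤ -(τ * N) with hok
  have oks : ∀ k p p', ok k p p' ↔ ok k p' p := by
    intro k p p'
    simp only [hok]
    rw [ip_comm p.1, ip_comm p.2]
  have TTs : ∀ k (p p' : Q N × Q N), T (u k) p.1 p'.1 * T (v k) p.2 p'.2 =
      T (u k) p'.1 p.1 * T (v k) p'.2 p.2 := by
    intro k p p'
    rw [T_comm, T_comm (v k)]
  have TTn : ∀ k ∈ s, ∀ (p p' : Q N × Q N), 0 ≤ T (u k) p.1 p'.1 * T (v k) p.2 p'.2 :=
    fun k hk p p' => mul_nonneg (T_nonneg (hu k hk) _ _) (T_nonneg (hv k hk) _ _)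
  set E : Matrix (Q N × Q N) (Q N × Q N) ℝ := Matrix.of fun p p' =>
    ∑ k ∈ s, c k * (if ok k p p' then 0 else T (u k) p.1 p'.1 * T (v k) p.2 p'.2) with hE
  set G : Matrix (Q N × Q N) (Q N × Q N) ℝ := Matrix.of fun p p' =>
    ∑ k ∈ s, c k * (if ok k p p' then T (u k) p.1 p'.1 * T (v k) p.2 p'.2 else 0) with hG
  have hEs : ∀ p p', E p p' = E p' p := by
    intro p p'
    simp only [hE, of_apply]
    refine sum_congr rfl fun k _ => ?_
    rw [TTs k p p']
    simp only [oks k p p']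
  have hE0 : ∀ p p', 0 ≤ E p p' := by
    intro p p'
    simp only [hE, of_apply]
    refine sum_nonneg fun k hk => mul_nonneg (hc k hk).le ?_
    split_ifs
    · exact le_rfl
    · exact TTn k hk p p'
  have hG0 : ∀ p p', 0 ≤ G p p' := by
    intro p p'
    simp only [hG, of_apply]
    refine sum_nonneg fun k hk => mul_nonneg (hc k hk).le ?_
    split_ifs
    · exact TTn k hk p p'
    · exact le_rfl
  have hrow : ∀ p, ∑ p', E p p' ≤ η := by
    intro p
    simp only [hE, of_apply]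
    rw [sum_comm, hη, hW, sum_mul]
    refine sum_le_sum fun k hk => ?_
    rw [← mul_sum]
    refine mul_le_mul_of_nonneg_left ?_ (hc k hk).le
    have := row_bound (N := N) hτ hτ1 (hu k hk) (huv k hk) (hv k hk) p
    convert! this
  have hGE : ∀ p p', G p p' + E p p' = ∑ k ∈ s, c k * (T (u k) p.1 p'.1 * T (v k) p.2 p'.2) := by
    intro p p'
    simp only [hG, hE, of_apply]
    rw [← sum_add_distrib]
    refine sum_congr rfl fun k _ => ?_
    split_ifs <;> ring
  set X : Matrix (Q N × Q N) (Q N × Q N) ℝ := Matrix.of fun p p' =>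
    G p p' + if p = p' then δ + η else 0 with hX
  have hXe : X = (Matrix.of fun p p' : Q N × Q N =>
      (∑ k ∈ s, c k * (T (u k) p.1 p'.1 * T (v k) p.2 p'.2)) + if p = p' then δ else 0) +
      (Matrix.of fun p p' : Q N × Q N => (if p = p' then η else 0) - E p p') := by
    ext p p'
    simp only [hX, of_apply, Matrix.add_apply]
    rw [← hGE p p']
    split_ifs <;> ring
  have hXp : X.PosSemidef := by
    rw [hXe]
    exact (psd_of_moments s c u v δ hm).add (psd_dominant hEs hE0 hrow)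
  have hX0 : ∀ p p', 0 ≤ X p p' := by
    intro p p'
    simp only [hX, of_apply]
    refine add_nonneg (hG0 p p') ?_
    split_ifs
    · linarith
    · exact le_rfl
  have hGd : ∀ p p' : Q N × Q N, -(τ * N) < ip p.1 p'.1 → -(τ * N) < ip p.2 p'.2 → G p p' = 0 := by
    intro p p' h1 h2
    simp only [hG, of_apply]
    refine sum_eq_zero fun k _ => ?_
    have : ¬ ok k p p' := by
      simp only [hok]
      split_ifs
      · exact not_le.2 h1
      · exact not_le.2 h2
    rw [if_neg this, mul_zero]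
  have hself : ∀ x : Q N, -(τ * N) < ip x x := by
    intro x
    rw [ip_self]
    nlinarith
  have htr : X.trace = (δ + η) * Fintype.card (Q N × Q N) := by
    unfold trace
    simp only [diag_apply, hX, of_apply, if_true]
    have : ∀ p, G p p + (δ + η) = δ + η := fun p => by
      rw [hGd p p (hself _) (hself _), zero_add]
    simp_rw [this]
    rw [sum_const, card_univ, nsmul_eq_mul, mul_comm]
  have hcard : (0 : ℝ) < Fintype.card (Q N × Q N) := by exact_mod_cast Fintype.card_pos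
  have hsum : W * Fintype.card (Q N × Q N) ≤ ∑ p, ∑ p', X p p' := by
    have h1 : ∀ p, W ≤ ∑ p', X p p' := by
      intro p
      have h2 : ∑ p', X p p' = ∑ p', G p p' + (δ + η) := by
        simp only [hX, of_apply]
        rw [sum_add_distrib]
        simp
      have h3 : ∑ p', G p p' + ∑ p', E p p' = W := by
        rw [← sum_add_distrib]
        simp_rw [hGE]
        rw [sum_comm, hW]
        refine sum_congr rfl fun k _ => ?_
        rw [← mul_sum, Fintype.sum_prod_type, ← sum_mul_sum, T_sum, T_sum]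
        ring
      have h4 := hrow p
      rw [h2]
      linarith
    calc W * Fintype.card (Q N × Q N) = ∑ _p : Q N × Q N, W := by
          rw [sum_const, card_univ, nsmul_eq_mul, mul_comm]
      _ ≤ _ := sum_le_sum fun p _ => h1 p
  have htr0 : 0 < X.trace := by
    rw [htr]; positivity
  refine le_trans ?_ (le_of_embed (strongProduct fun _ : Fin r => cubeG N τ) (emb r) (emb_inj hr) hXp
    hX0 htr0 ?_)
  · rw [le_div_iff₀ htr0, htr]
    calc W / (δ + η) * ((δ + η) * Fintype.card (Q N × Q N))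
        = W * Fintype.card (Q N × Q N) := by
          have : δ + η ≠ 0 := by positivity
          field_simp
      _ ≤ _ := hsum
  · intro p p' hadj
    have hne : p ≠ p' := fun h => hadj.1 (by rw [h])
    have h0 := hadj.2 ⟨0, by omega⟩
    have h1 := hadj.2 ⟨1, by omega⟩
    have k0 : -(τ * N) < ip p.1 p'.1 := by
      have : p.1 = p'.1 ∨ (cubeG N τ).Adj p.1 p'.1 := by simpa [emb] using h0
      rcases this with h | h
      · rw [h]; exact hself _
      · exact h.2
    have k1 : -(τ * N) < ip p.2 p'.2 := by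
      have : p.2 = p'.2 ∨ (cubeG N τ).Adj p.2 p'.2 := by simpa [emb] using h1
      rcases this with h | h
      · rw [h]; exact hself _
      · exact h.2
    simp only [hX, of_apply]
    rw [hGd p p' k0 k1, if_neg hne, add_zero]

/-- The growth: for every `K` there is a graph with Schrijver number between `2` and `9 ^ (5 K)`
whose strong powers have Schrijver number at least `9 ^ (2 K ^ 2) / 2`. -/
theorem growth (K : ℕ) (hK : 1 ≤ K) {r : ℕ} (hr : 2 ≤ r) : ∃ (N : ℕ) (τ : ℝ),
    2 ≤ schrijver (cubeG N τ) ∧ schrijver (cubeG N τ) ≤ 9 ^ (5 * K) ∧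
      (9 : ℝ) ^ (2 * K ^ 2) / 2 ≤ schrijver (strongProduct fun _ : Fin r => cubeG N τ) := by
  set a : ℝ := (1 / 9) ^ (4 * K) with ha
  have ha0 : 0 < a := by positivity
  have h9 : ∀ n : ℕ, (1 / 9 : ℝ) ^ n * 9 ^ n = 1 := fun n => by
    rw [← mul_pow]; norm_num
  have ha1 : a ≤ 1 / 9 := by
    rw [ha]
    calc (1 / 9 : ℝ) ^ (4 * K) ≤ (1 / 9) ^ 1 :=
          pow_le_pow_of_le_one (by norm_num) (by norm_num) (by omega)
      _ = 1 / 9 := by norm_num
  set τ := a / 2 with hτ
  have hρ : a * 9 ^ (2 * K) = (1 / 9) ^ (2 * K) := by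
    rw [ha, show 4 * K = 2 * K + 2 * K by ring, pow_add, mul_assoc, h9, mul_one]
  have hρ1 : a * 9 ^ (2 * K) ≤ 1 := by
    rw [hρ]; exact pow_le_one₀ (by norm_num) (by norm_num)
  have hc1 : 1 - τ ^ 2 / 16 < 1 := by
    have : 0 < τ := by positivity
    have : 0 < τ ^ 2 := by positivity
    linarith
  have hc0 : 0 ≤ 1 - τ ^ 2 / 16 := by rw [hτ]; nlinarith
  obtain ⟨N0, hN0⟩ := exists_pow_lt_of_lt_one (show (0 : ℝ) < (1 / 9) ^ (2 * K ^ 2) by positivity) hc1
  set N := N0 + 1 with hN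
  have hNp : 0 < N := by omega
  have hNb : (1 - τ ^ 2 / 16) ^ N ≤ (1 / 9) ^ (2 * K ^ 2) := by
    refine (pow_le_pow_of_le_one hc0 hc1.le (by omega : N0 ≤ N)).trans hN0.le
  refine ⟨N, τ, two_le_cubeG hNp (by rw [hτ]; linarith), ?_, ?_⟩
  · refine (cubeG_le hNp (by positivity)).trans ?_
    have h1 : 1 / τ = 2 * 9 ^ (4 * K) := by
      rw [hτ, ha]
      have := h9 (4 * K)
      have h2 : (1 / 9 : ℝ) ^ (4 * K) ≠ 0 := by positivity
      field_simp
      field_simp at this
      linarith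
    rw [h1]
    have h2 : (1 : ℝ) ≤ 9 ^ (4 * K) := one_le_pow₀ (by norm_num)
    have h3 : (9 : ℝ) ^ (4 * K) * 9 ≤ 9 ^ (5 * K) := by
      rw [← pow_succ]
      exact pow_le_pow_right₀ (by norm_num) (by omega)
    linarith
  · have hW : mass K = ∑ k ∈ range K ×ˢ range K, wt k.1 k.2 := by
      unfold mass; rw [sum_product]
    have hWpos : 0 < mass K := by
      rw [hW]
      exact sum_pos (fun k _ => wt_pos _ _) ⟨(0, 0), by simp; omega⟩
    set δ := mass K * (a * 9 ^ (2 * K)) ^ K with hδ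
    have hδ0 : 0 < δ := by positivity
    have h := product_bound (N := N) hNp hr (τ := τ) (by positivity) (by rw [hτ]; linarith)
      (range K ×ˢ range K) (fun k => wt k.1 k.2) (fun k => uu a k.1 k.2) (fun k => vv a k.1 k.2)
      (fun k _ => wt_pos _ _)
      (fun k hk => (uu_abs ha0 (mem_range.1 (mem_product.1 hk).1) _).trans hρ1)
      (fun k hk => (vv_abs ha0 (mem_range.1 (mem_product.1 hk).2) _).trans hρ1)
      (fun k _ => by
        have := uu_or_vv ha0 k.1 k.2
        rw [hτ, mul_div_cancel₀ _ (two_ne_zero)]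
        exact this) hδ0
      (fun p r => by
        have h1 := mom_ge ha0 hρ1 p r
        unfold mom at h1
        rw [← sum_product'] at h1
        linarith)
    refine le_trans ?_ h
    rw [← hW]
    have h2 : δ + mass K * (1 - τ ^ 2 / 16) ^ N ≤ mass K * (2 * (1 / 9) ^ (2 * K ^ 2)) := by
      have e1 : δ = mass K * (1 / 9) ^ (2 * K ^ 2) := by
        rw [hδ, hρ, ← pow_mul]
        congr 2
        ring
      have e2 := mul_le_mul_of_nonneg_left hNb hWpos.le
      rw [e1]
      linarith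
    have h3 : 0 < δ + mass K * (1 - τ ^ 2 / 16) ^ N := by positivity
    rw [le_div_iff₀ h3]
    calc (9 : ℝ) ^ (2 * K ^ 2) / 2 * (δ + mass K * (1 - τ ^ 2 / 16) ^ N)
        ≤ 9 ^ (2 * K ^ 2) / 2 * (mass K * (2 * (1 / 9) ^ (2 * K ^ 2))) := by gcongr
      _ = mass K * ((1 / 9) ^ (2 * K ^ 2) * 9 ^ (2 * K ^ 2)) := by ring
      _ = mass K := by rw [h9, mul_one]

end Pool.Agent.R813.SN
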